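import Mathlib
import Pool.Agent.Helper37.FracTuza.Defs
import Pool.Agent.Helper5.FracCover.Defs
import Pool.Agent.Helper60.GT.All

/-!
An upper bound for the integral covering number by `(k-1)`-sets in terms of the integral packing
number, for every `k`-uniform hypergraph with `k` large.
-/

namespace Pool.Agent.Results.MP_b0da8a_co.IntegralBound

open Pool.Agent.Helper37.FracTuza Pool.Agent.Helper5.FracCover

/-- There are `c, C > 0` and `k₀` such that for all `k ≥ k₀` and all `N ≥ 2`: every `k`-uniform
hypergraph `H` on a finite vertex set in which every `(k-1)`-set lies in at most `N` members of `H`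
has a packing `M` and a cover `D` by `(k-1)`-sets with
`|D| ≤ (k - c max (log k, k exp (- C log N / log k))) |M|`. -/
theorem result : ∃ c C : ℝ, 0 < c ∧ 0 < C ∧ ∃ k₀ : ℕ, ∀ k : ℕ, k₀ ≤ k →
    ∀ (n : ℕ) (H : Finset (Finset (Fin n))), (∀ e ∈ H, e.card = k) →
    ∀ N : ℕ, 2 ≤ N →
    (∀ S : Finset (Fin n), S.card = k - 1 → (H.filter (fun e => S ⊆ e)).card ≤ N) →
    ∃ M D : Finset (Finset (Fin n)), IsPacking k H M ∧ IsCover k H D ∧
      (D.card : ℝ) ≤ ((k : ℝ) - c * max (Real.log k)
        ((k : ℝ) * Real.exp (-(C * Real.log N / Real.log k)))) * M.card :=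
  Pool.Agent.Helper60.GT.combined

end Pool.Agent.Results.MP_b0da8a_co.IntegralBound
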