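import Mathlib
import Pool.Agent.Helper37.FracTuza.Defs
import Pool.Agent.Helper5.FracCover.Defs
import Pool.Agent.Helper5.FracCover.Rounding
import Pool.Agent.Helper5.FracCover.SchemeA
import Pool.Agent.Helper5.FracCover.Duality
import Pool.Agent.Helper5.FracCover.Five
import Pool.Agent.Helper5.FracCover.Even

/-!
The ratio of the integral covering number by `(k-1)`-sets and the fractional packing number:
an upper bound `gap k` for every `k`, equal to `⌈(k+1)/2⌉` for `k = 5, 6, 8, 10, 12, 14` and to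
`(k + 1 + √(k-1)) / 2` for the other `k`.
-/

namespace Pool.Agent.Results.MP_b0da8a_co.IntegralityGap

open Pool.Agent.Helper37.FracTuza Pool.Agent.Helper5.FracCover

/-- The bound for the integrality gap: `⌈(k+1)/2⌉` for `k = 5, 6, 8, 10, 12, 14` and
`(k + 1 + √(k-1)) / 2` for the other `k`. -/
noncomputable def gap (k : ℕ) : ℝ :=
  if k ∈ ({5, 6, 8, 10, 12, 14} : Finset ℕ) then (⌈((k : ℝ) + 1) / 2⌉₊ : ℝ)
  else ((k : ℝ) + 1 + Real.sqrt ((k : ℝ) - 1)) / 2

theorem ceil_half (m : ℕ) {k : ℝ} (h1 : (m : ℝ) - 1 < (k + 1) / 2) (h2 : (k + 1) / 2 ≤ m)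
    (hm : m ≠ 0) : ⌈(k + 1) / 2⌉₊ = m :=
  (Nat.ceil_eq_iff hm).2 ⟨by
    rw [Nat.cast_sub (Nat.one_le_iff_ne_zero.2 hm), Nat.cast_one]
    exact h1, h2⟩

theorem scheme_small {k : ℕ} (hk : k ∈ ({5, 6, 8, 10, 12, 14} : Finset ℕ)) {ε : ℝ} (hε : 0 < ε) :
    Scheme k (⌈((k : ℝ) + 1) / 2⌉₊ : ℝ) ε := by
  simp only [Finset.mem_insert, Finset.mem_singleton] at hk
  rcases hk with rfl | rfl | rfl | rfl | rfl | rfl
  · rw [ceil_half 3 (by norm_num) (by norm_num) (by norm_num)]
    exact_mod_cast scheme5 hε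
  · rw [ceil_half 4 (by norm_num) (by norm_num) (by norm_num)]
    exact scheme6 hε
  · rw [ceil_half 5 (by norm_num) (by norm_num) (by norm_num)]
    exact scheme8 hε
  · rw [ceil_half 6 (by norm_num) (by norm_num) (by norm_num)]
    exact scheme10 hε
  · rw [ceil_half 7 (by norm_num) (by norm_num) (by norm_num)]
    exact scheme12 hε
  · rw [ceil_half 8 (by norm_num) (by norm_num) (by norm_num)]
    exact scheme14 hε

theorem scheme_gap {k : ℕ} (hk : 2 ≤ k) {ε : ℝ} (hε : 0 < ε) : Scheme k (gap k) ε := by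
  unfold gap
  by_cases h : k ∈ ({5, 6, 8, 10, 12, 14} : Finset ℕ)
  · rw [if_pos h]
    exact scheme_small h hε
  · rw [if_neg h]
    exact schemeA hk hε

theorem gap_nonneg (k : ℕ) : 0 ≤ gap k := by
  unfold gap
  by_cases h : k ∈ ({5, 6, 8, 10, 12, 14} : Finset ℕ)
  · rw [if_pos h]
    exact Nat.cast_nonneg _
  · rw [if_neg h]
    have hk0 : (0 : ℝ) ≤ k := Nat.cast_nonneg k
    have hs := Real.sqrt_nonneg ((k : ℝ) - 1)
    positivity

/-- For every `k ≥ 2` and every `k`-uniform hypergraph `H` on a finite vertex set: for every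
fractional cover `w` of `H` by `(k-1)`-sets there is an integral cover `C` by `(k-1)`-sets with at
most `gap k` times the weight of `w` members; and there are a cover `C` and a fractional packing
`y` such that `C` has at most `gap k` times the weight of `y` members. -/
theorem result : ∀ k : ℕ, 2 ≤ k → ∀ n : ℕ, ∀ H : Finset (Finset (Fin n)), (∀ e ∈ H, e.card = k) →
    (∀ w : Finset (Fin n) → ℝ, IsFractionalCover k H w →
      ∃ C : Finset (Finset (Fin n)), IsCover k H C ∧ (C.card : ℝ) ≤ gap k * totalWeight k w) ∧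
    ∃ (C : Finset (Finset (Fin n))) (y : Finset (Fin n) → ℝ),
      IsCover k H C ∧ IsFractionalPacking k H y ∧ (C.card : ℝ) ≤ gap k * ∑ e ∈ H, y e := by
  intro k hk n H hH
  have hg : 0 ≤ gap k := gap_nonneg k
  have hmain : ∀ w : Finset (Fin n) → ℝ, IsFractionalCover k H w →
      ∃ C : Finset (Finset (Fin n)), IsCover k H C ∧ (C.card : ℝ) ≤ gap k * totalWeight k w := by
    intro w hw
    refine rounding (by omega) hg (fun ε hε => ?_) hH hw
    exact scheme_mono (scheme_gap hk hε) (by linarith)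
  refine ⟨hmain, ?_⟩
  obtain ⟨y, w, hy, hw, hyw⟩ := exists_dual (by omega : 1 ≤ k) H hH
  obtain ⟨C, hC, hCw⟩ := hmain w hw
  exact ⟨C, y, hC, hy, hCw.trans (mul_le_mul_of_nonneg_left hyw hg)⟩

end Pool.Agent.Results.MP_b0da8a_co.IntegralityGap
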