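import Mathlib
import Pool.Agent.Helper37.FracTuza.Defs
import Pool.Agent.Helper5.FracCover.Defs
import Pool.Agent.Helper60.GP.Final

/-!
The asymptotically sharp bound `τ ≤ (1/2 + ε) k ν` for `k`-uniform hypergraphs in which every
`(k-1)`-set lies in at most `k^c` members, `c = c(ε) > 0`.
-/

namespace Pool.Agent.Results.MP_b0da8a_co.PolyDegree

open Pool.Agent.Helper37.FracTuza Pool.Agent.Helper5.FracCover

/-- For every `ε > 0` there are `c > 0` and `k₀` such that for all `k ≥ k₀`: every `k`-uniform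
hypergraph `H` on a finite vertex set in which every `(k-1)`-set lies in at most `k^c` members of
`H` has a packing `M` and a cover `C` by `(k-1)`-sets with `|C| ≤ (1/2 + ε) k |M|`. -/
theorem result : ∀ ε : ℝ, 0 < ε → ∃ c : ℝ, 0 < c ∧ ∃ k₀ : ℕ, ∀ k : ℕ, k₀ ≤ k →
    ∀ (n : ℕ) (H : Finset (Finset (Fin n))), (∀ e ∈ H, e.card = k) →
    (∀ S : Finset (Fin n), S.card = k - 1 →
      ((H.filter (fun e => S ⊆ e)).card : ℝ) ≤ (k : ℝ) ^ c) →
    ∃ M C : Finset (Finset (Fin n)), IsPacking k H M ∧ IsCover k H C ∧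
      (C.card : ℝ) ≤ (1 / 2 + ε) * k * M.card :=
  Pool.Agent.Helper60.VT.polyBound

end Pool.Agent.Results.MP_b0da8a_co.PolyDegree
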