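import Mathlib
import Pool.Agent.Helper37.FracTuza.Defs
import Pool.Agent.Helper37.FracTuza.Main

/-!
The fractional form of the Aharoni-Zerbib problem on covering and packing `(k-1)`-sets, with the
best possible constant, for every `k`.
-/

namespace Pool.Agent.Results.MP_b0da8a_co.SharpFractional

open Pool.Agent.Helper37.FracTuza

/-- For every `k ≥ 2`, every `k`-uniform hypergraph `H` has a packing `M` (members pairwise sharing
fewer than `k-1` vertices) and a fractional cover `w` by `(k-1)`-sets whose total weight is at most
`(k+1)/2` times the size of `M`; and in the complete `k`-uniform hypergraph on `k+1` vertices every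
packing has at most one member and every fractional cover has total weight at least `(k+1)/2`, so
that the constant is best possible. -/
theorem result :
    (∀ k : ℕ, 2 ≤ k → ∀ n : ℕ, ∀ H : Finset (Finset (Fin n)), (∀ e ∈ H, e.card = k) →
      ∃ (M : Finset (Finset (Fin n))) (w : Finset (Fin n) → ℝ),
        IsPacking k H M ∧ IsFractionalCover k H w ∧
          totalWeight k w ≤ ((k : ℝ) + 1) / 2 * M.card) ∧
    (∀ k : ℕ, 2 ≤ k →
      (∀ M : Finset (Finset (Fin (k + 1))),
        IsPacking k ((Finset.univ : Finset (Fin (k + 1))).powersetCard k) M → M.card ≤ 1) ∧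
      (∀ w : Finset (Fin (k + 1)) → ℝ,
        IsFractionalCover k ((Finset.univ : Finset (Fin (k + 1))).powersetCard k) w →
          ((k : ℝ) + 1) / 2 ≤ totalWeight k w)) :=
  ⟨fun _ hk _ H hH => exists_cover hk H hH,
    fun _ hk => ⟨fun M hM => complete_packing (by omega) M hM,
      fun w hw => complete_cover (by omega) w hw⟩⟩

end Pool.Agent.Results.MP_b0da8a_co.SharpFractional
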